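import Pool.Agent.Helper40.AV.St

/-! Project AV, module AV1b: numerical bounds for `e ^ (-γ)`. -/

set_option autoImplicit false

namespace Pool.Agent.Helper51.AV

open Pool.Agent.Helper40.AV Real

theorem harmonic_64 : (harmonic 64 : ℚ) < 4.74390 := by
  decide +kernel

theorem harmonic_63 : 4.72820 < (harmonic 63 : ℚ) := by
  decide +kernel

theorem log64 : Real.log 64 = 6 * Real.log 2 := by
  rw [show (64 : ℝ) = 2 ^ 6 by norm_num, Real.log_pow]
  norm_num

theorem gamma_lt : eulerMascheroniConstant < 0.58505 := by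
  have h1 := eulerMascheroniConstant_lt_eulerMascheroniSeq' 64
  rw [eulerMascheroniSeq', if_neg (by norm_num)] at h1
  have h2 : ((harmonic 64 : ℚ) : ℝ) < 4.74390 := by
    have := (Rat.cast_lt (K := ℝ)).2 harmonic_64
    refine this.trans_eq ?_
    norm_num
  have h3 := Real.log_two_gt_d9
  push_cast at h1
  rw [log64] at h1
  linarith

theorem gamma_gt : (0.569 : ℝ) < eulerMascheroniConstant := by
  have h1 := eulerMascheroniSeq_lt_eulerMascheroniConstant 63
  rw [eulerMascheroniSeq] at h1
  have h2 : (4.72820 : ℝ) < ((harmonic 63 : ℚ) : ℝ) := by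
    have := (Rat.cast_lt (K := ℝ)).2 harmonic_63
    refine lt_of_eq_of_lt ?_ this
    norm_num
  have h3 := Real.log_two_lt_d9
  have h4 : ((63 : ℕ) : ℝ) + 1 = 64 := by norm_num
  rw [h4, log64] at h1
  linarith

theorem gammaNum : GammaNum := by
  constructor
  · have h1 : Real.exp (-0.58505) ≤ Real.exp (-eulerMascheroniConstant) :=
      Real.exp_le_exp.2 (by have := gamma_lt; linarith)
    refine le_trans ?_ h1
    rw [Real.exp_neg]
    have h2 : Real.exp 0.58505 ≤ 1.7952 := by
      have h3 := Real.exp_bound' (x := (0.58505 : ℝ)) (by norm_num) (by norm_num)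
        (n := 8) (by norm_num)
      refine h3.trans ?_
      norm_num [Finset.sum_range_succ, Nat.factorial]
    have h4 : (0.557 : ℝ) ≤ (1.7952)⁻¹ := by norm_num
    exact h4.trans (inv_anti₀ (Real.exp_pos _) h2)
  · have h1 : Real.exp (-eulerMascheroniConstant) ≤ Real.exp (-0.569) :=
      Real.exp_le_exp.2 (by have := gamma_gt; linarith)
    refine h1.trans ?_
    rw [Real.exp_neg]
    have h2 : 1.765 ≤ Real.exp 0.569 := by
      have h3 := Real.sum_le_exp_of_nonneg (x := (0.569 : ℝ)) (by norm_num) 5
      refine le_trans ?_ h3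
      norm_num [Finset.sum_range_succ, Nat.factorial]
    have h4 : (1.765 : ℝ)⁻¹ ≤ 0.57 := by norm_num
    exact (inv_anti₀ (by norm_num) h2).trans h4

end Pool.Agent.Helper51.AV
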